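import Pool.Agent.R557.RTMach

set_option autoImplicit false

/-! Problem MP_7b562e_lc: no uniform threshold for complexity relative to solutions of RT^1_2. -/

namespace Pool.Agent.Results.MP_7b562e_lc.NoUniformThreshold

open Finset
open Pool.Agent.TH676.CK (IsPlain PCount isPlain_cx exists_optPlain)
open Pool.Agent.R557.CK
open Pool.Agent.R557.RT

open Classical in
/-- The first `l` bits of (the characteristic sequence of) the set `X`. -/
noncomputable def firstBits (X : Set ℕ) (l : ℕ) : List Bool :=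
  (List.range l).map (fun i => decide (i ∈ X))

/-- An oracle machine, given by its computations with finite oracle information: `M τ p` is the
output on the program `p` if only the oracle bits listed in `τ` may be queried. It is partial
computable, and an output is kept when more oracle bits become available. -/
def OracleMachine (M : List Bool → List Bool →. List Bool) : Prop :=
  Partrec₂ M ∧ ∀ τ τ' p x : List Bool, τ <+: τ' → x ∈ M τ p → x ∈ M τ' p

/-- The oracle machine `M` with oracle `X` outputs `x` on the program `p`. -/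
def Outputs (M : List Bool → List Bool →. List Bool) (X : Set ℕ) (p x : List Bool) : Prop :=
  ∃ l : ℕ, x ∈ M (firstBits X l) p

/-- An optimal (universal) oracle machine: it simulates every oracle machine with programs longer
by at most a constant, uniformly in the oracle. -/
def OptimalOracle (U : List Bool → List Bool →. List Bool) : Prop :=
  OracleMachine U ∧ ∀ V : List Bool → List Bool →. List Bool, OracleMachine V →
    ∃ c : ℕ, ∀ (X : Set ℕ) (p x : List Bool), Outputs V X p x →
      ∃ q : List Bool, Outputs U X q x ∧ q.length ≤ p.length + c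

/-- The plain complexity `C^X(σ)` relative to the oracle `X`. -/
noncomputable def oracleC (U : List Bool → List Bool →. List Bool) (X : Set ℕ)
    (σ : List Bool) : ℕ :=
  sInf {l : ℕ | ∃ p : List Bool, p.length = l ∧ Outputs U X p σ}

/-- An optimal conditional machine, for conditions which are natural numbers. -/
def OptimalCond (D : List Bool → ℕ →. List Bool) : Prop :=
  Partrec₂ D ∧ ∀ V : List Bool → ℕ →. List Bool, Partrec₂ V →
    ∃ c : ℕ, ∀ (p : List Bool) (n : ℕ) (x : List Bool), x ∈ V p n →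
      ∃ q : List Bool, x ∈ D q n ∧ q.length ≤ p.length + c

/-- The conditional plain complexity `C(σ | n)`. -/
noncomputable def condC (D : List Bool → ℕ →. List Bool) (σ : List Bool) (n : ℕ) : ℕ :=
  sInf {l : ℕ | ∃ p : List Bool, p.length = l ∧ σ ∈ D p n}

/-- `RT^1_2(A)`: the infinite subsets of `A` and of its complement. -/
def RT12 (A : Set ℕ) : Set (Set ℕ) := {X | X.Infinite ∧ (X ⊆ A ∨ X ⊆ Aᶜ)}

lemma firstBits_length (X : Set ℕ) (l : ℕ) : (firstBits X l).length = l := by
  simp [firstBits]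

open Classical in
lemma firstBits_getD (X : Set ℕ) {l i : ℕ} (h : i < l) :
    (firstBits X l).getD i false = decide (i ∈ X) := by
  unfold firstBits
  rw [List.getD_eq_getElem?_getD]
  simp [h]

section
variable {C : ℕ → ℕ} {b : ℕ → ℕ → ℕ}

/-- a short program for an oracle without members between two settling times -/
lemma describe (str : ℕ ≃ List Bool) (hC : PCount C) (hb1 : ∀ x t, C x ≤ b x t)
    (hb3 : ∀ x t t', t ≤ t' → b x t' ≤ b x t) (X : Set ℕ) (hX : X.Infinite) (e : ℕ)
    (hgap : ∀ x ∈ X, SS b (2 ^ e) < x → SS b (2 * 2 ^ e) < x) :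
    ∃ p : List Bool, p.length = e + 1 + (2 ^ (2 * (e / 2) + 2) - 2 ^ e) ∧
      Outputs (mach b str) X p
        (str (Nat.pair (2 ^ (2 * (e / 2) + 2)) (ww b (2 ^ (2 * (e / 2) + 2))))) := by
  classical
  set k : ℕ := 2 ^ e with hk
  set n : ℕ := 2 ^ (2 * (e / 2) + 2) with hn
  have hkn : 2 * k ≤ n := by
    have : 2 * k = 2 ^ (e + 1) := by rw [hk, pow_succ]; ring
    rw [this, hn]
    exact Nat.pow_le_pow_right (by norm_num) (by omega)
  -- the next member of the oracle
  have hex : ∃ x, x ∈ X ∧ SS b k < x := by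
    obtain ⟨x, hx, hlt⟩ := hX.exists_gt (SS b k)
    exact ⟨x, hx, hlt⟩
  set x := Nat.find hex with hx
  have hxX : x ∈ X := (Nat.find_spec hex).1
  have hxS : SS b k < x := (Nat.find_spec hex).2
  have hxmin : ∀ y < x, SS b k < y → y ∉ X := fun y hy h1 h2 => Nat.find_min hex hy ⟨h2, h1⟩
  have hx2 : SS b (2 * k) < x := hgap x hxX hxS
  set m : ℕ := ww b k + 2 ^ k * (ww b n % 2 ^ (n - 2 * k)) with hm
  have hwk : ww b k < 2 ^ k := vv_lt hC hb1 k _
  have hmlt : m < 2 ^ (n - k) := by
    have h1 : ww b n % 2 ^ (n - 2 * k) < 2 ^ (n - 2 * k) := Nat.mod_lt _ (by positivity)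
    have h2 : 2 ^ (n - k) = 2 ^ k * 2 ^ (n - 2 * k) := by rw [← pow_add]; congr 1; omega
    rw [h2, hm]
    calc ww b k + 2 ^ k * (ww b n % 2 ^ (n - 2 * k)) < 2 ^ k + 2 ^ k * (ww b n % 2 ^ (n - 2 * k)) := by
          omega
      _ = 2 ^ k * (ww b n % 2 ^ (n - 2 * k) + 1) := by ring
      _ ≤ 2 ^ k * 2 ^ (n - 2 * k) := Nat.mul_le_mul_left _ h1
  set p : List Bool := (List.replicate e false ++ [true]) ++ bitl (n - k) m with hp
  have hplen : p.length = e + 1 + (n - k) := by
    rw [hp, List.length_append, List.length_append, List.length_replicate, bitl_length]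
    rfl
  have hpe : pe p = e := by
    unfold pe
    rw [hp, List.append_assoc, List.idxOf_append_of_notMem (by simp), List.length_replicate]
    simp
  have hpm : pm p = m := by
    unfold pm
    rw [hpe, hp, List.drop_left' (by simp), dec_bitl hmlt]
  have hpk : pk p = k := by unfold pk; rw [hpe]
  have hpn : pn p = n := by unfold pn; rw [hpe]
  refine ⟨p, hplen, x + 1, ?_⟩
  rw [mem_mach]
  have hmod : m % 2 ^ k = ww b k := by
    rw [hm, Nat.add_mul_mod_self_left, Nat.mod_eq_of_lt hwk]
  have hdiv : m / 2 ^ k = ww b n % 2 ^ (n - 2 * k) := by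
    rw [hm, Nat.add_mul_div_left _ _ (by positivity), Nat.div_eq_of_lt hwk, zero_add]
  refine ⟨Nat.pair (SS b k) x, ?_, ?_⟩
  · rw [cond_iff, Nat.unpair_pair, hpk, hpm, hmod]
    refine ⟨rfl, ?_, hxS, ?_, ?_, ?_⟩
    · intro t ht h1
      have := SS_least hb3 hC hb1 k h1
      exact absurd ht (not_lt.2 this)
    · rw [firstBits_length]
      exact Nat.lt_succ_self x
    · show (firstBits X (x + 1)).getD x false = true
      rw [firstBits_getD X (Nat.lt_succ_self x)]
      exact decide_eq_true hxX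
    · intro y hy h1
      have hy' : y < x := hy
      rw [firstBits_getD X (by omega)]
      exact decide_eq_false (hxmin y hy' h1)
  · unfold outn
    rw [Nat.unpair_pair, hpn, hpk, hpm, hdiv]
    have h1 : vv b (2 * k) x = ww b (2 * k) := SS_spec hb3 hC hb1 (2 * k) hx2.le
    have h2 : ww b (2 * k) = ww b n / 2 ^ (n - 2 * k) := by
      have h3 := ww_div hb3 hC hb1 (2 * k) (n - 2 * k)
      rw [← h3]
      congr 2
      omega
    simp only [h1, h2]
    rw [Nat.div_add_mod']

end

/-- There is a set `A` such that for every `N` the difference between `C(σ | ≥ N)` and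
`C(σ | RT^1_2(A))` is unbounded from above. Both complexities are written as suprema in `ℕ∞`. -/
theorem result : ∃ A : Set ℕ, ∀ (U : List Bool → List Bool →. List Bool)
    (D : List Bool → ℕ →. List Bool), OptimalOracle U → OptimalCond D → ∀ N M : ℕ,
      ∃ σ : List Bool,
        (⨆ X ∈ RT12 A, (oracleC U X σ : ℕ∞)) + M ≤ ⨆ n ≥ N, (condC D σ n : ℕ∞) := by
  classical
  obtain ⟨str, hs⟩ := exists_str
  obtain ⟨W, hW⟩ := exists_optPlain
  have hIC := isPlain_cx (U := W) hW str hs
  set C : ℕ → ℕ := fun n => Pool.Agent.TH676.CK.cx W (str n) with hCdef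
  change IsPlain C at hIC
  have hC : PCount C := hIC.2.1
  obtain ⟨b, hb, hb1, hb3, hb2⟩ := exists_anti hIC.1
  -- complexity of the initial segments
  obtain ⟨c1, hc1⟩ := plain_rel hIC (fun x u => decide (vv b x.unpair.1 u = x.unpair.2) &&
    Pool.Agent.H166R3.AT.ball u (fun t => !decide (vv b x.unpair.1 t = x.unpair.2))) (by
      have cn : Computable (fun q : ℕ × ℕ => q.1.unpair.1) :=
        Computable.fst.comp (Computable.unpair.comp Computable.fst)
      have ch : Computable (fun q : ℕ × ℕ => q.1.unpair.2) :=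
        Computable.snd.comp (Computable.unpair.comp Computable.fst)
      refine Pool.Agent.H166R3.AT.c_and (Pool.Agent.H166R3.AT.c_eq (c_vv b hb cn Computable.snd) ch) ?_
      refine Pool.Agent.H166R3.AT.c_ball Computable.snd (f := fun (q : ℕ × ℕ) t =>
        !decide (vv b q.1.unpair.1 t = q.1.unpair.2)) ?_
      exact Pool.Agent.H166R3.AT.c_not (Pool.Agent.H166R3.AT.c_eq
        (c_vv b hb (cn.comp Computable.fst) Computable.snd) (ch.comp Computable.fst))) (by
      intro x u u' h h'
      simp only [Bool.and_eq_true, decide_eq_true_eq, Pool.Agent.H166R3.AT.ball_iff,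
        Bool.not_eq_true', decide_eq_false_iff_not] at h h'
      rcases lt_trichotomy u u' with h1 | h1 | h1
      · exact absurd h.1 (h'.2 _ h1)
      · exact h1
      · exact absurd h'.1 (h.2 _ h1))
  have hlow : ∀ n : ℕ, 16 * n ≤ 17 * (C (Nat.pair n (ww b n)) + c1) + 112 := by
    intro n
    have h1 := hc1 (Nat.pair n (ww b n)) (SS b n) (by
      simp only [Bool.and_eq_true, decide_eq_true_eq, Pool.Agent.H166R3.AT.ball_iff,
        Bool.not_eq_true', decide_eq_false_iff_not, Nat.unpair_pair]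
      refine ⟨rfl, ?_⟩
      intro t ht h2
      have := SS_least hb3 hC hb1 n h2
      omega)
    have h2 := le_gq hb3 hC hb1 hb2 n
    unfold gq at h2
    omega
  -- the set
  set A : Set ℕ := {x | ∃ c : ℕ, SS b (2 ^ (2 * c)) < x ∧ x ≤ SS b (2 ^ (2 * c + 1))} with hA
  refine ⟨A, fun U D hU hD N M => ?_⟩
  -- the constants
  obtain ⟨cU, hcU⟩ := hU.2 (mach b str) ⟨mach_partrec b hs hb, fun τ τ' p x h hx => mach_mono b h hx⟩
  have hDN : Partrec (fun p : List Bool => D p N) :=
    hD.1.comp Computable.id (Computable.const N)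
  obtain ⟨cN, hcN⟩ := hW.2 (fun p => D p N) hDN
  have hcond : ∀ σ : List Bool, Pool.Agent.TH676.CK.cx W σ ≤ condC D σ N + cN := by
    intro σ
    have hne : {l : ℕ | ∃ p : List Bool, p.length = l ∧ σ ∈ D p N}.Nonempty := by
      obtain ⟨c, hc⟩ := hD.2 (fun p _ => Part.some p) (Computable.fst.partrec)
      obtain ⟨q, hq, -⟩ := hc σ N σ (Part.mem_some σ)
      exact ⟨q.length, q, rfl, hq⟩
    obtain ⟨p, hp, hpσ⟩ := Nat.sInf_mem hne
    obtain ⟨q, hq, hql⟩ := hcN p σ hpσ
    have h1 : Pool.Agent.TH676.CK.cx W σ ≤ q.length := Nat.sInf_le ⟨q, rfl, hq⟩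
    unfold condC
    omega
  obtain ⟨c, hT⟩ : ∃ c : ℕ, c = 17 * (cU + M + cN + c1 + 2) + 112 := ⟨_, rfl⟩
  obtain ⟨n, hn⟩ : ∃ n : ℕ, n = 2 ^ (2 * c + 2) := ⟨_, rfl⟩
  refine ⟨str (Nat.pair n (ww b n)), ?_⟩
  -- the upper bound
  have hup : ∀ X ∈ RT12 A, oracleC U X (str (Nat.pair n (ww b n))) ≤
      2 * c + 2 + (n - 2 ^ (2 * c)) + cU := by
    intro X hX
    have hmono := fun {m m' : ℕ} (h : m ≤ m') => SS_mono hb3 hC hb1
      (Nat.pow_le_pow_right (by norm_num : 0 < 2) h)
    rcases hX.2 with h | h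
    · have e1 : (2 * c + 1) / 2 = c := by omega
      obtain ⟨p, hp, hpo⟩ := describe str hC hb1 hb3 X hX.1 (2 * c + 1) (by
        intro x hx hlt
        obtain ⟨c', h1, h2⟩ := h hx
        have e2 : 2 * 2 ^ (2 * c + 1) = 2 ^ (2 * c + 2) := by ring
        rw [e2]
        by_contra h3
        push Not at h3
        by_cases h4 : c' ≤ c
        · have := hmono (show 2 * c' + 1 ≤ 2 * c + 1 by omega)
          omega
        · have := hmono (show 2 * c + 2 ≤ 2 * c' by omega)
          omega)
      rw [e1, ← hn] at hp hpo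
      obtain ⟨q, hq, hql⟩ := hcU X p _ hpo
      have h1 : oracleC U X (str (Nat.pair n (ww b n))) ≤ q.length := Nat.sInf_le ⟨q, rfl, hq⟩
      have h2 : 2 ^ (2 * c) ≤ 2 ^ (2 * c + 1) := Nat.pow_le_pow_right (by norm_num) (by omega)
      omega
    · have e1 : 2 * c / 2 = c := by omega
      obtain ⟨p, hp, hpo⟩ := describe str hC hb1 hb3 X hX.1 (2 * c) (by
        intro x hx hlt
        have e2 : 2 * 2 ^ (2 * c) = 2 ^ (2 * c + 1) := by ring
        rw [e2]
        by_contra h3
        push Not at h3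
        exact h hx ⟨c, hlt, h3⟩)
      rw [e1, ← hn] at hp hpo
      obtain ⟨q, hq, hql⟩ := hcU X p _ hpo
      have h1 : oracleC U X (str (Nat.pair n (ww b n))) ≤ q.length := Nat.sInf_le ⟨q, rfl, hq⟩
      omega
  -- comparison
  have hcmp : 2 * c + 2 + (n - 2 ^ (2 * c)) + cU + M ≤
      condC D (str (Nat.pair n (ww b n))) N := by
    have h1 := hlow n
    have h2 := hcond (str (Nat.pair n (ww b n)))
    have h3 : C (Nat.pair n (ww b n)) = Pool.Agent.TH676.CK.cx W (str (Nat.pair n (ww b n))) := rfl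
    rw [← h3] at h2
    have h4 : n = 4 * 2 ^ (2 * c) := by rw [hn]; ring
    have h5 : 3 * c + 1 ≤ 2 ^ (2 * c) := by
      have h6 : (2 : ℕ) ^ (2 * c) = 4 ^ c := by rw [pow_mul]; norm_num
      rw [h6]
      have h7 : ∀ c : ℕ, 3 * c + 1 ≤ 4 ^ c := by
        intro c
        induction c with
        | zero => norm_num
        | succ c ih => rw [pow_succ]; omega
      exact h7 c
    omega
  calc (⨆ X ∈ RT12 A, (oracleC U X (str (Nat.pair n (ww b n))) : ℕ∞)) + M
      ≤ ((2 * c + 2 + (n - 2 ^ (2 * c)) + cU : ℕ) : ℕ∞) + M := by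
        gcongr
        exact iSup₂_le (fun X hX => by exact_mod_cast hup X hX)
    _ = ((2 * c + 2 + (n - 2 ^ (2 * c)) + cU + M : ℕ) : ℕ∞) := by push_cast; rfl
    _ ≤ (condC D (str (Nat.pair n (ww b n))) N : ℕ∞) := by exact_mod_cast hcmp
    _ ≤ ⨆ n' ≥ N, (condC D (str (Nat.pair n (ww b n))) n' : ℕ∞) :=
        le_iSup₂ (f := fun n' (_ : n' ≥ N) => (condC D (str (Nat.pair n (ww b n))) n' : ℕ∞)) N le_rfl

end Pool.Agent.Results.MP_7b562e_lc.NoUniformThreshold
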